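import Pool.Agent.H960.IS.Stm

/-!
# The coalescence time of the dynamics (S_tau)
-/

set_option autoImplicit false

open MeasureTheory Filter Topology Finset H960FV H960IS

namespace Pool.Agent.H650.IS

theorem evo_shift {d : ℕ} {S A : Type} {F F' : Finset (Z d)} (f : (F → S) → (F' → A) → S)
    (W : Z d × ℤ → A) (ξ : Z d → S) (i0 : ℤ) (n : ℕ) :
    evo f W ξ i0 n = evo f (fun y => W (y.1, y.2 + i0)) ξ 0 n := by
  induction n with
  | zero => rfl
  | succ n ih =>
    funext v
    show f (fun u => evo f W ξ i0 n (v + u)) (fun u => W (v + u, i0 + n)) =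
      f (fun u => evo f (fun y => W (y.1, y.2 + i0)) ξ 0 n (v + u))
        (fun u => W (v + u, 0 + (n : ℤ) + i0))
    rw [ih]
    have h : (0 : ℤ) + n + i0 = i0 + n := by ring
    rw [h]

theorem ber_prob (θ : ℝ) (h0 : 0 ≤ θ) (h1 : θ ≤ 1) : IsProbabilityMeasure (ber θ) := by
  constructor
  unfold ber
  simp only [Measure.add_apply, Measure.smul_apply, measure_univ, smul_eq_mul, mul_one]
  rw [← ENNReal.ofReal_add h0 (by linarith)]
  simp

theorem meas_evo {d : ℕ} {S A : Type} [Finite S] [MeasurableSpace S] [MeasurableSingletonClass S]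
    [Finite A] [MeasurableSpace A] [MeasurableSingletonClass A] {F F' : Finset (Z d)}
    (f : (F → S) → (F' → A) → S) (ξ : Z d → S) (i0 : ℤ) (n : ℕ) (v : Z d) :
    Measurable (fun W : Z d × ℤ → A => evo f W ξ i0 n v) := by
  induction n generalizing v with
  | zero => exact measurable_const
  | succ n ih =>
    have h1 : Measurable (fun q : (F → S) × (F' → A) => f q.1 q.2) := Measurable.of_discrete
    have h2 : Measurable (fun W : Z d × ℤ → A => ((fun u : F => evo f W ξ i0 n (v + u)),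
        (fun u : F' => W (v + u, i0 + n)))) :=
      Measurable.prodMk (measurable_pi_lambda _ fun u => ih _)
        (measurable_pi_lambda _ fun u => measurable_pi_apply _)
    exact h1.comp h2

theorem upd_mono {d L : ℕ} (n : Z d → Al d L) (hn : ∀ x, Monotone (n x).2) :
    Monotone (upd n) := by
  intro st st' hst v
  unfold upd
  by_cases h : ∃ w, v - w ∈ bx d L ∧ iso L (fun x => (n x).1) w
  · rw [dif_pos h, dif_pos h]
    exact hn _ (fun x => hst _) _
  · rw [dif_neg h, dif_neg h]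
    exact hst v

theorem evo_mono (h1 : S_rule) {d L : ℕ} (W : Z d × ℤ → Al d L) (hW : ∀ y, Monotone (W y).2)
    (i0 : ℤ) (n : ℕ) : Monotone (fun ξ => evo (rule d L) W ξ i0 n) := by
  induction n with
  | zero => exact monotone_id
  | succ n ih =>
    intro ξ ξ' h
    show evo (rule d L) W ξ i0 (n + 1) ≤ evo (rule d L) W ξ' i0 (n + 1)
    rw [h1 d L W ξ i0 n, h1 d L W ξ' i0 n]
    exact upd_mono _ (fun x => hW _) (ih h)

theorem ae_mono {d L : ℕ} {β θ : ℝ} (h0 : 0 ≤ θ) (h1 : θ ≤ 1)
    (ν : Measure ((↥(bx d (L + 1)) → Bool) → (↥(bx d L) → Bool))) [IsProbabilityMeasure ν]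
    (hc : Coup d L β ν) :
    ∀ᵐ W ∂(Measure.infinitePi fun _ : Z d × ℤ => (ber θ).prod ν), ∀ y, Monotone (W y).2 := by
  have := ber_prob θ h0 h1
  rw [ae_all_iff]
  intro y
  have h2 : ∀ᵐ κ ∂ν, Monotone κ := by
    rw [ae_iff]
    have h3 : {κ : (↥(bx d (L + 1)) → Bool) → (↥(bx d L) → Bool) | ¬ Monotone κ} =
        ⋃ κ ∈ {κ : (↥(bx d (L + 1)) → Bool) → (↥(bx d L) → Bool) | ¬ Monotone κ}, {κ} :=
      (Set.biUnion_of_singleton _).symm
    rw [h3, measure_biUnion_null_iff (Set.toFinite _).countable]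
    intro κ hκ
    by_contra h4
    exact hκ (hc.1 κ h4)
  have h5 : ∀ᵐ a ∂((ber θ).prod ν), Monotone a.2 :=
    Measure.quasiMeasurePreserving_snd.ae h2
  exact (measurePreserving_eval_infinitePi (fun _ : Z d × ℤ =>
    (ber θ).prod ν) y).quasiMeasurePreserving.ae h5

section kernels

variable {d : ℕ} {β : ℝ}

theorem Zn_pos (Λ : Finset (Z d)) (η : Z d → Bool) : 0 < Zn β Λ η := by
  unfold Zn
  exact Finset.sum_pos (fun _ _ => Real.exp_pos _) Finset.univ_nonempty

theorem Kop_neg (Λ : Finset (Z d)) (g : (Z d → Bool) → ℝ) (η : Z d → Bool) :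
    Kop β Λ (fun σ => -g σ) η = -Kop β Λ g η := by
  unfold Kop
  simp only [mul_neg, Finset.sum_neg_distrib, neg_div]

theorem Kop_le_one (Λ : Finset (Z d)) (g : (Z d → Bool) → ℝ) (hg : ∀ σ, g σ ≤ 1)
    (η : Z d → Bool) : Kop β Λ g η ≤ 1 := by
  unfold Kop
  rw [div_le_one (Zn_pos Λ η)]
  unfold Zn
  refine Finset.sum_le_sum fun τ _ => ?_
  have h := mul_le_mul_of_nonneg_left (hg (gl Λ τ η)) (Real.exp_pos (β * En Λ (gl Λ τ η))).le
  rwa [mul_one] at h

theorem Kl_cons (B : Finset (Z d)) (l : List (Finset (Z d))) (g : (Z d → Bool) → ℝ) :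
    Kl β (B :: l) g = Kop β B (Kl β l g) := rfl

theorem Kl_neg (l : List (Finset (Z d))) (g : (Z d → Bool) → ℝ) :
    Kl β l (fun σ => -g σ) = fun η => -Kl β l g η := by
  induction l with
  | nil => rfl
  | cons B l ih =>
    rw [Kl_cons, ih, Kl_cons]
    funext η
    exact Kop_neg B _ η

theorem Kl_le_one (l : List (Finset (Z d))) (g : (Z d → Bool) → ℝ) (hg : ∀ σ, g σ ≤ 1) :
    ∀ η, Kl β l g η ≤ 1 := by
  induction l with
  | nil => exact hg
  | cons B l ih =>
    intro η
    rw [Kl_cons]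
    exact Kop_le_one B _ ih η

theorem Kl_flip (h4 : S_flip) (l : List (Finset (Z d))) (g : (Z d → Bool) → ℝ) :
    ∀ η : Z d → Bool, Kl β l (fun σ => g (fun x => !σ x)) η = Kl β l g (fun x => !η x) := by
  induction l with
  | nil => exact fun η => rfl
  | cons B l ih =>
    intro η
    rw [Kl_cons, Kl_cons]
    have h : Kl β l (fun σ => g (fun x => !σ x)) = fun σ => Kl β l g (fun x => !σ x) :=
      funext ih
    rw [h]
    exact h4 d β B (Kl β l g) η

theorem sp_not (b : Bool) : sp (!b) = -sp b := by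
  cases b <;> simp [sp]

theorem sp_mono : Monotone sp := by
  intro a b h
  cases a <;> cases b
  · exact le_rfl
  · norm_num [sp]
  · exact absurd h (by decide)
  · exact le_rfl

theorem sp_le_one (b : Bool) : sp b ≤ 1 := by
  cases b <;> norm_num [sp]

theorem Kl_false (h4 : S_flip) (l : List (Finset (Z d))) :
    Kl β l (fun σ => sp (σ 0)) (fun _ => false) = -Kl β l (fun σ => sp (σ 0)) (fun _ => true) := by
  have h1 := Kl_flip (β := β) h4 l (fun σ : Z d → Bool => sp (σ 0)) (fun _ => true)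
  have h2 : (fun σ : Z d → Bool => sp (!σ 0)) = fun σ => -sp (σ 0) :=
    funext fun σ => sp_not _
  have h3 : Kl β l (fun σ : Z d → Bool => sp (!σ 0)) (fun _ => true) =
      Kl β l (fun σ => sp (σ 0)) (fun _ => !true) := h1
  rw [h2, Kl_neg] at h3
  exact h3.symm

theorem mag_nonneg (h4 : S_flip) (h5 : S_mono) (hβ : 0 ≤ β) (Λ : Finset (Z d)) :
    0 ≤ mag β Λ 0 := by
  have h1 : Monotone (fun σ : Z d → Bool => sp (σ 0)) := fun σ σ' h => sp_mono (h 0)
  have h2 := h5 d β Λ _ hβ h1 (show (fun _ : Z d => false) ≤ (fun _ => true) from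
    fun _ => Bool.false_le _)
  have h3 := Kl_false (β := β) h4 [Λ]
  have h6 : Kop β Λ (fun σ => sp (σ 0)) (fun _ => false) =
    -Kop β Λ (fun σ => sp (σ 0)) (fun _ => true) := h3
  rw [h6] at h2
  unfold mag
  linarith

end kernels

theorem mem_LL {d l R n : ℕ} (hR : l ≤ R) (a : Z d × ℤ → Bool) (t : ℕ) (ht : t < n) (w : Z d)
    (hw : w ∈ bx d l) (hi : iso (2 * l) (fun x => a (x, (t : ℤ))) w) :
    bw (2 * l) w ∈ LL (2 * l) R a n := by
  classical
  unfold LL
  rw [List.mem_flatMap]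
  refine ⟨t, by simpa using ht, ?_⟩
  unfold ls
  rw [List.mem_map]
  refine ⟨w, ?_, rfl⟩
  rw [Finset.mem_toList, Finset.mem_filter]
  exact ⟨bx_mono hR hw, hi⟩

theorem bx_sub_bw {d l : ℕ} (w : Z d) (hw : w ∈ bx d l) : bx d l ⊆ bw (2 * l) w := by
  intro x hx
  unfold bw
  rw [Finset.mem_image]
  refine ⟨x - w, ?_, by abel⟩
  have h := bx_sub hx hw
  rwa [← two_mul] at h

/-- the bound on the activity space -/
theorem act_bound (h3 : S_cens) (h4 : S_flip) (h5 : S_mono) (h6 : S_deep) (d l n R : ℕ) (β : ℝ)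
    (hβ : 0 ≤ β) (hR : l ≤ R) (hθ0 : 0 ≤ 1 / (8 * (l : ℝ) + 5) ^ d)
    (hθ1 : 1 / (8 * (l : ℝ) + 5) ^ d ≤ 1) :
    ∫ a, Kl β (LL (2 * l) R a n) (fun σ => sp (σ 0)) (fun _ => true)
      ∂(Measure.infinitePi fun _ : Z d × ℤ => ber (1 / (8 * (l : ℝ) + 5) ^ d)) ≤
      mag β (bx d l) 0 + (1 - 1 / (4 * 5 ^ d)) ^ n := by
  have hb := ber_prob _ hθ0 hθ1
  have hdeep := h6 d l n
  generalize hQ : (Measure.infinitePi fun _ : Z d × ℤ => ber (1 / (8 * (l : ℝ) + 5) ^ d)) = Q
    at hdeep ⊢
  have hQp : IsProbabilityMeasure Q := by rw [← hQ]; infer_instance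
  set Dc : Set (Z d × ℤ → Bool) :=
    {a | ∀ t : ℕ, t < n → ¬ ∃ w ∈ bx d l, iso (2 * l) (fun x => a (x, (t : ℤ))) w} with hDc
  have hm := mag_nonneg (β := β) h4 h5 hβ (bx d l)
  have hpow : (0 : ℝ) ≤ (1 - 1 / (4 * 5 ^ d)) ^ n := by
    apply pow_nonneg
    have h5d : (1 : ℝ) ≤ 5 ^ d := one_le_pow₀ (by norm_num)
    have : 1 / (4 * (5 : ℝ) ^ d) ≤ 1 := by
      rw [div_le_one (by positivity)]
      linarith
    linarith
  by_cases hF : Integrable (fun a => Kl β (LL (2 * l) R a n) (fun σ => sp (σ 0))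
      (fun _ => true)) Q
  · have hD' : MeasurableSet (toMeasurable Q Dc) := measurableSet_toMeasurable _ _
    have hi : Integrable (fun a => mag β (bx d l) 0 +
        (toMeasurable Q Dc).indicator (fun _ => (1 : ℝ)) a) Q :=
      (integrable_const _).add ((integrable_const _).indicator hD')
    have hle := integral_mono hF hi (fun a => by
      show Kl β (LL (2 * l) R a n) (fun σ => sp (σ 0)) (fun _ => true) ≤
        mag β (bx d l) 0 + (toMeasurable Q Dc).indicator (fun _ => (1 : ℝ)) a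
      by_cases ha : a ∈ Dc
      · rw [Set.indicator_of_mem (subset_toMeasurable Q Dc ha)]
        have := Kl_le_one (β := β) (LL (2 * l) R a n) (fun σ : Z d → Bool => sp (σ 0))
          (fun σ => sp_le_one _) (fun _ => true)
        linarith
      · have h7 : ∃ t : ℕ, t < n ∧ ∃ w ∈ bx d l, iso (2 * l) (fun x => a (x, (t : ℤ))) w := by
          by_contra h8
          apply ha
          intro t ht hw
          exact h8 ⟨t, ht, hw⟩
        obtain ⟨t, ht, w, hw, hiso⟩ := h7
        have h8 := h3 d β (LL (2 * l) R a n) (bx d l) (bw (2 * l) w) hβ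
          (mem_LL hR a t ht w hw hiso) (bx_sub_bw w hw)
        have h9 : 0 ≤ (toMeasurable Q Dc).indicator (fun _ => (1 : ℝ)) a :=
          Set.indicator_nonneg (fun _ _ => zero_le_one) a
        linarith)
    rw [integral_add (integrable_const _) ((integrable_const _).indicator hD'), integral_const,
      integral_indicator hD', setIntegral_const] at hle
    have h10 : Q.real (toMeasurable Q Dc) = Q.real Dc := by
      unfold Measure.real
      rw [measure_toMeasurable]
    rw [h10] at hle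
    simp only [probReal_univ, smul_eq_mul, one_mul, mul_one] at hle
    linarith
  · rw [integral_undef hF]
    linarith

theorem tau (h1 : S_rule) (h2 : S_rep) (h3 : S_cens) (h4 : S_flip) (h5 : S_mono)
    (h6 : S_deep) : S_tau := by
  intro d l β hβ ν _ hc n
  have hθ0 : 0 ≤ 1 / (8 * (l : ℝ) + 5) ^ d := by positivity
  have hθ1 : 1 / (8 * (l : ℝ) + 5) ^ d ≤ 1 := by
    rw [div_le_one (by positivity)]
    apply one_le_pow₀
    have : (0 : ℝ) ≤ l := by positivity
    linarith
  have hb := ber_prob _ hθ0 hθ1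
  have hbound := act_bound h3 h4 h5 h6 d l n (l + (3 * (2 * l) + 3) * n) β hβ (by omega) hθ0 hθ1
  have hrep := h2 d (2 * l) β _ ν hc hθ0 hθ1 0 n (l + (3 * (2 * l) + 3) * n)
    (fun σ => sp (σ 0)) (fun σ σ' h => by
      show sp (σ 0) = sp (σ' 0)
      rw [h 0 zero_mem_bx]) (by omega)
  have hae := ae_mono (d := d) (L := 2 * l) hθ0 hθ1 ν hc
  have hsp : MeasurePreserving
      (fun (W : Z d × ℤ → Al d (2 * l)) (y : Z d × ℤ) => W (y.1, y.2 + (-(n : ℤ))))
      (Measure.infinitePi fun _ : Z d × ℤ => (ber (1 / (8 * (l : ℝ) + 5) ^ d)).prod ν)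
      (Measure.infinitePi fun _ : Z d × ℤ => (ber (1 / (8 * (l : ℝ) + 5) ^ d)).prod ν) := by
    refine ⟨measurable_pi_lambda _ fun y => measurable_pi_apply _, ?_⟩
    exact Measure.map_infinitePi_infinitePi_of_inj
      (P := fun _ : Z d × ℤ => (ber (1 / (8 * (l : ℝ) + 5) ^ d)).prod ν)
      (f := fun y : Z d × ℤ => (y.1, y.2 + (-(n : ℤ)))) (fun y y' hy => by
        have e1 := congrArg Prod.fst hy
        have e2 := congrArg Prod.snd hy
        simp only at e1 e2
        exact Prod.ext e1 (by omega))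
  have hPp : IsProbabilityMeasure
    (Measure.infinitePi fun _ : Z d × ℤ => (ber (1 / (8 * (l : ℝ) + 5) ^ d)).prod ν) :=
    inferInstance
  generalize (Measure.infinitePi fun _ : Z d × ℤ =>
    (ber (1 / (8 * (l : ℝ) + 5) ^ d)).prod ν) = P at hrep hae hsp hPp ⊢
  set T : (Z d × ℤ → Al d (2 * l)) → Bool :=
    fun W => evo (rule d (2 * l)) W (fun _ => true) 0 n 0 with hT
  set B : (Z d × ℤ → Al d (2 * l)) → Bool :=
    fun W => evo (rule d (2 * l)) W (fun _ => false) 0 n 0 with hB
  have mT : Measurable T := meas_evo _ _ _ _ _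
  have mB : Measurable B := meas_evo _ _ _ _ _
  have mG : MeasurableSet {W | T W = true ∧ B W = false} :=
    (mT (measurableSet_singleton true)).inter (mB (measurableSet_singleton false))
  -- the event
  have e1 : P.real {W | ∀ i : ℕ, i ≤ n → ∃ ξ ξ' : Z d → Bool,
      evo (rule d (2 * l)) W ξ (-(i : ℤ)) i 0 ≠ evo (rule d (2 * l)) W ξ' (-(i : ℤ)) i 0} ≤
      P.real {W | T W = true ∧ B W = false} := by
    have e2 : P {W | ∀ i : ℕ, i ≤ n → ∃ ξ ξ' : Z d → Bool,
      evo (rule d (2 * l)) W ξ (-(i : ℤ)) i 0 ≠ evo (rule d (2 * l)) W ξ' (-(i : ℤ)) i 0} ≤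
      P {W | T W = true ∧ B W = false} := by
      rw [← hsp.measure_preimage mG.nullMeasurableSet]
      apply measure_mono_ae
      filter_upwards [hae] with W hW hWE
      obtain ⟨ξ, ξ', hne⟩ := hWE n le_rfl
      rw [evo_shift, evo_shift (rule d (2 * l)) W ξ'] at hne
      have hmono := evo_mono h1 (fun y : Z d × ℤ => W (y.1, y.2 + (-(n : ℤ))))
        (fun y => hW _) 0 n
      have a1 : ∀ ζ : Z d → Bool, evo (rule d (2 * l)) (fun y : Z d × ℤ =>
          W (y.1, y.2 + (-(n : ℤ)))) ζ 0 n 0 ≤ T (fun y => W (y.1, y.2 + (-(n : ℤ)))) :=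
        fun ζ => hmono (show ζ ≤ (fun _ => true) from fun _ => Bool.le_true _) 0
      have a2 : ∀ ζ : Z d → Bool, B (fun y => W (y.1, y.2 + (-(n : ℤ)))) ≤
          evo (rule d (2 * l)) (fun y : Z d × ℤ => W (y.1, y.2 + (-(n : ℤ)))) ζ 0 n 0 :=
        fun ζ => hmono (show (fun _ => false) ≤ ζ from fun _ => Bool.false_le _) 0
      have b1 := a1 ξ
      have b2 := a1 ξ'
      have b3 := a2 ξ
      have b4 := a2 ξ'
      show T (fun y => W (y.1, y.2 + (-(n : ℤ)))) = true ∧
        B (fun y => W (y.1, y.2 + (-(n : ℤ)))) = false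
      generalize evo (rule d (2 * l)) (fun y : Z d × ℤ => W (y.1, y.2 + (-(n : ℤ)))) ξ 0 n 0 = u
        at hne b1 b3
      generalize evo (rule d (2 * l)) (fun y : Z d × ℤ => W (y.1, y.2 + (-(n : ℤ)))) ξ' 0 n 0 = u'
        at hne b2 b4
      generalize T (fun y => W (y.1, y.2 + (-(n : ℤ)))) = x at b1 b2 ⊢
      generalize B (fun y => W (y.1, y.2 + (-(n : ℤ)))) = z at b3 b4 ⊢
      revert u u' x z
      decide
    exact ENNReal.toReal_mono (measure_ne_top _ _) e2
  -- the expectation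
  have iT : Integrable (fun W => sp (T W)) P := by
    refine Integrable.of_bound ((Measurable.of_discrete (f := sp)).comp mT).aestronglyMeasurable 1
      (Eventually.of_forall fun W => ?_)
    cases h : T W <;> simp [sp]
  have iB : Integrable (fun W => sp (B W)) P := by
    refine Integrable.of_bound ((Measurable.of_discrete (f := sp)).comp mB).aestronglyMeasurable 1
      (Eventually.of_forall fun W => ?_)
    cases h : B W <;> simp [sp]
  have e3 : P.real {W | T W = true ∧ B W = false} ≤ ∫ W, (sp (T W) - sp (B W)) / 2 ∂P := by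
    rw [← integral_indicator_one mG]
    apply integral_mono_ae ((integrable_const (1 : ℝ)).indicator mG) ((iT.sub iB).div_const 2)
    filter_upwards [hae] with W hW
    have hmono : B W ≤ T W := evo_mono h1 W hW 0 n
      (show (fun _ : Z d => false) ≤ (fun _ => true) from fun _ => Bool.false_le _) 0
    show Set.indicator {W | T W = true ∧ B W = false} 1 W ≤ (sp (T W) - sp (B W)) / 2
    rw [Set.indicator_apply]
    show (if (T W = true ∧ B W = false) then (1 : ℝ) else 0) ≤ (sp (T W) - sp (B W)) / 2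
    generalize T W = x at hmono ⊢
    generalize B W = z at hmono ⊢
    cases x <;> cases z
    · norm_num [sp]
    · exact absurd hmono (by decide)
    · norm_num [sp]
    · norm_num [sp]
  have e4 : ∫ W, (sp (T W) - sp (B W)) / 2 ∂P = ∫ a, Kl β (LL (2 * l) (l + (3 * (2 * l) + 3) * n)
      a n) (fun σ => sp (σ 0)) (fun _ => true)
      ∂(Measure.infinitePi fun _ : Z d × ℤ => ber (1 / (8 * (l : ℝ) + 5) ^ d)) := by
    rw [integral_div, integral_sub iT iB]
    have hT' := hrep (fun _ => true)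
    have hB' := hrep (fun _ => false)
    rw [show (∫ W, sp (T W) ∂P) = _ from hT', show (∫ W, sp (B W) ∂P) = _ from hB']
    have h7 : ∀ a : Z d × ℤ → Bool, Kl β (LL (2 * l) (l + (3 * (2 * l) + 3) * n) a n)
        (fun σ => sp (σ 0)) (fun _ => false) =
        -Kl β (LL (2 * l) (l + (3 * (2 * l) + 3) * n) a n) (fun σ => sp (σ 0)) (fun _ => true) :=
      fun a => Kl_false h4 _
    rw [integral_congr_ae (Eventually.of_forall h7), integral_neg]
    ring
  linarith

end Pool.Agent.H650.IS
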